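import Pool.Agent.H35.SN.POHb

set_option autoImplicit false

namespace Pool.Agent.H35.SN

open Pool.Agent.H87.SN
open MeasureTheory Metric Set Filter Topology
open scoped ContDiff RealInnerProductSpace

theorem norm_bv {n : ℕ} (i : Fin n) : ‖(bv i : E n)‖ = 1 := by
  simp [bv]

theorem norm_apply_le {n m : ℕ} (T : E n →L[ℝ] E m) (i : Fin n) : ‖T (bv i)‖ ≤ ‖T‖ := by
  have h := T.le_opNorm (bv i)
  rwa [norm_bv, mul_one] at h

theorem cont_nsq {n m : ℕ} : Continuous (fun T : E n →L[ℝ] E m => nsq T) := by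
  unfold nsq
  refine continuous_finsetSum _ fun i _ => ?_
  exact ((continuous_id.clm_apply continuous_const).norm).pow 2

theorem cont_nzs {d m : ℕ} : Continuous (fun T : E (d + 2) →L[ℝ] E m => nzs T) := by
  unfold nzs
  refine continuous_finsetSum _ fun i _ => ?_
  exact ((continuous_id.clm_apply continuous_const).norm).pow 2

theorem cont_statF {n m : ℕ} :
    Continuous (fun p : (E n →L[ℝ] E m) × (E n →L[ℝ] E n) => statF p.1 p.2) := by
  unfold statF
  have h1 : ∀ i : Fin n, Continuous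
      (fun p : (E n →L[ℝ] E m) × (E n →L[ℝ] E n) => p.1 (bv i)) := fun i =>
    continuous_fst.clm_apply continuous_const
  have h2 : ∀ i j : Fin n, Continuous
      (fun p : (E n →L[ℝ] E m) × (E n →L[ℝ] E n) => (p.2 (bv i)) j) := fun i j => by
    have h3 : Continuous (fun p : (E n →L[ℝ] E m) × (E n →L[ℝ] E n) => p.2 (bv i)) :=
      continuous_snd.clm_apply continuous_const
    exact (EuclideanSpace.proj (𝕜 := ℝ) j).continuous.comp h3
  refine ((cont_nsq.comp continuous_fst).mul (continuous_finsetSum _ fun i _ => h2 i i)).sub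
    (continuous_const.mul (continuous_finsetSum _ fun i _ =>
      continuous_finsetSum _ fun j _ => ((h1 i).inner (h1 j)).mul (h2 i j)))

theorem nsq_le {n m : ℕ} (T : E n →L[ℝ] E m) : nsq T ≤ n * ‖T‖ ^ 2 := by
  unfold nsq
  calc ∑ i : Fin n, ‖T (bv i)‖ ^ 2 ≤ ∑ _i : Fin n, ‖T‖ ^ 2 :=
        Finset.sum_le_sum fun i _ => pow_le_pow_left₀ (norm_nonneg _) (norm_apply_le T i) 2
    _ = n * ‖T‖ ^ 2 := by simp

theorem inner_le_nsq {n m : ℕ} (T : E n →L[ℝ] E m) (i j : Fin n) :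
    |⟪T (bv i), T (bv j)⟫| ≤ nsq T := by
  have h1 : |⟪T (bv i), T (bv j)⟫| ≤ ‖T (bv i)‖ * ‖T (bv j)‖ := abs_real_inner_le_norm _ _
  have h2 : ∀ k : Fin n, ‖T (bv k)‖ ^ 2 ≤ nsq T := fun k =>
    Finset.single_le_sum (f := fun k : Fin n => ‖T (bv k)‖ ^ 2) (fun _ _ => sq_nonneg _)
      (Finset.mem_univ k)
  nlinarith [h2 i, h2 j, sq_nonneg (‖T (bv i)‖ - ‖T (bv j)‖)]

theorem statF_le {n m : ℕ} (T : E n →L[ℝ] E m) (D : E n →L[ℝ] E n) :
    |statF T D| ≤ 3 * (∑ i : Fin n, ∑ j : Fin n, |(D (bv i)) j|) * nsq T := by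
  set S : ℝ := ∑ i : Fin n, ∑ j : Fin n, |(D (bv i)) j| with hS
  have hn := nsq_nonneg T
  have h1 : |∑ i : Fin n, (D (bv i)) i| ≤ S := by
    refine (Finset.abs_sum_le_sum_abs _ _).trans ?_
    refine Finset.sum_le_sum fun i _ => ?_
    exact Finset.single_le_sum (f := fun j : Fin n => |(D (bv i)) j|) (fun _ _ => abs_nonneg _)
      (Finset.mem_univ i)
  have h2 : |∑ i : Fin n, ∑ j : Fin n, ⟪T (bv i), T (bv j)⟫ * (D (bv i)) j| ≤ nsq T * S := by
    rw [hS, Finset.mul_sum]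
    refine (Finset.abs_sum_le_sum_abs _ _).trans ?_
    refine Finset.sum_le_sum fun i _ => ?_
    rw [Finset.mul_sum]
    refine (Finset.abs_sum_le_sum_abs _ _).trans ?_
    refine Finset.sum_le_sum fun j _ => ?_
    rw [abs_mul]
    exact mul_le_mul_of_nonneg_right (inner_le_nsq T i j) (abs_nonneg _)
  unfold statF
  have h3 : |nsq T * ∑ i : Fin n, (D (bv i)) i| ≤ nsq T * S := by
    rw [abs_mul, abs_of_nonneg hn]
    exact mul_le_mul_of_nonneg_left h1 hn
  have h4 := abs_sub (nsq T * ∑ i : Fin n, (D (bv i)) i)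
    (2 * ∑ i : Fin n, ∑ j : Fin n, ⟪T (bv i), T (bv j)⟫ * (D (bv i)) j)
  rw [abs_mul 2, abs_of_pos (by norm_num : (0 : ℝ) < 2)] at h4
  linarith

theorem statF_zero {n m : ℕ} (T : E n →L[ℝ] E m) : statF T 0 = 0 := by
  simp [statF]

theorem nsq_integrable {n m : ℕ} {G : E n → E n →L[ℝ] E m} {μ : Measure (E n)}
    (hG : MemLp G 2 μ) : Integrable (fun x => nsq (G x)) μ := by
  have h1 : Integrable (fun x => ‖G x‖ ^ 2) μ := hG.integrable_norm_pow (by norm_num)
  refine Integrable.mono' (h1.const_mul (n : ℝ)) (cont_nsq.comp_aestronglyMeasurable hG.1)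
    (Eventually.of_forall fun x => ?_)
  rw [Real.norm_eq_abs, abs_of_nonneg (nsq_nonneg _)]
  exact nsq_le (G x)

theorem int_of_le {n m : ℕ} {G : E n → E n →L[ℝ] E m}
    (hG : MemLp G 2 (volume.restrict (ball (0 : E n) 2))) (f : E n → ℝ) (K : ℝ)
    (hf : AEStronglyMeasurable f (volume.restrict (ball (0 : E n) 2)))
    (hK : ∀ x ∈ ball (0 : E n) 2, |f x| ≤ K * nsq (G x)) :
    Integrable f (volume.restrict (ball (0 : E n) 2)) := by
  refine Integrable.mono' ((nsq_integrable hG).const_mul K) hf ?_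
  rw [ae_restrict_iff' measurableSet_ball]
  exact Eventually.of_forall fun x hx => by
    rw [Real.norm_eq_abs]
    exact hK x hx

theorem bd_ball {n : ℕ} (f : E n → ℝ) (hf : Continuous f) :
    ∃ K, ∀ x ∈ ball (0 : E n) 2, |f x| ≤ K := by
  obtain ⟨K, hK⟩ := (isCompact_closedBall (0 : E n) 2).exists_bound_of_continuousOn
    hf.continuousOn
  exact ⟨K, fun x hx => by
    have := hK x (ball_subset_closedBall hx)
    rwa [Real.norm_eq_abs] at this⟩

theorem cont_comp {n : ℕ} : Continuous (fun D : E n →L[ℝ] E n =>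
    3 * (∑ i : Fin n, ∑ j : Fin n, |(D (bv i)) j|)) := by
  refine continuous_const.mul (continuous_finsetSum _ fun i _ =>
    continuous_finsetSum _ fun j _ => ?_)
  have h3 : Continuous (fun D : E n →L[ℝ] E n => D (bv i)) :=
    continuous_id.clm_apply continuous_const
  have h4 : Continuous (fun v : E n => |v j|) :=
    (EuclideanSpace.proj (𝕜 := ℝ) j).continuous.abs
  exact h4.comp h3

theorem statF_integrable {n m : ℕ} {G : E n → E n →L[ℝ] E m}
    (hG : MemLp G 2 (volume.restrict (ball (0 : E n) 2))) (D : E n → (E n →L[ℝ] E n))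
    (hD : Continuous D) :
    Integrable (fun x => statF (G x) (D x)) (volume.restrict (ball (0 : E n) 2)) := by
  obtain ⟨K, hK⟩ := bd_ball _ (cont_comp.comp hD)
  refine int_of_le hG _ K ?_ fun x hx => ?_
  · have h2 : AEStronglyMeasurable D (volume.restrict (ball (0 : E n) 2)) :=
      hD.aestronglyMeasurable
    have h := Continuous.comp_aestronglyMeasurable (f := fun x => (G x, D x)) cont_statF
      (hG.1.prodMk h2)
    exact h
  · refine (statF_le _ _).trans ?_
    exact mul_le_mul_of_nonneg_right ((le_abs_self _).trans (hK x hx)) (nsq_nonneg _)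

theorem rho_nonneg {d : ℕ} (x : E (d + 2)) : 0 ≤ rho x := Real.sqrt_nonneg _

theorem cont_rho {d : ℕ} : Continuous (fun x : E (d + 2) => rho x) := by
  unfold rho
  have h0 : Continuous (fun x : E (d + 2) => x 0) := (EuclideanSpace.proj (𝕜 := ℝ) 0).continuous
  have h1 : Continuous (fun x : E (d + 2) => x 1) := (EuclideanSpace.proj (𝕜 := ℝ) 1).continuous
  exact ((h0.pow 2).add (h1.pow 2)).sqrt

theorem rho_meas {d : ℕ} (μ : Measure (E (d + 2))) :
    AEStronglyMeasurable (fun x : E (d + 2) => (rho x ^ 2)⁻¹) μ :=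
  (cont_rho.pow 2).measurable.inv.aestronglyMeasurable

theorem app_meas {n m : ℕ} {G : E n → E n →L[ℝ] E m} {μ : Measure (E n)}
    (hG : AEStronglyMeasurable G μ) (f : E n → E n) (hf : Continuous f) :
    AEStronglyMeasurable (fun x => ‖G x (f x)‖ ^ 2) μ := by
  have h0 : Continuous (fun p : (E n →L[ℝ] E m) × E n => p.1 p.2) :=
    continuous_fst.clm_apply continuous_snd
  have h1 : Continuous (fun p : (E n →L[ℝ] E m) × E n => ‖p.1 p.2‖ ^ 2) := h0.norm.pow 2
  have h2 : AEStronglyMeasurable f μ := hf.aestronglyMeasurable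
  have h := Continuous.comp_aestronglyMeasurable (f := fun x => (G x, f x)) h1 (hG.prodMk h2)
  exact h

theorem split_le {d m : ℕ} (hLA1 : T_LA1) (T : E (d + 2) →L[ℝ] E m) (x : E (d + 2)) :
    nzs T + (rho x ^ 2)⁻¹ * ‖T (Pm d x)‖ ^ 2 + (rho x ^ 2)⁻¹ * ‖T (Jm d x)‖ ^ 2 ≤ nsq T := by
  rcases (rho_nonneg x).eq_or_lt with h | h
  · rw [← h]
    have h1 := nsq_split T
    have h2 : 0 ≤ ‖T (bv 0)‖ ^ 2 := by positivity
    have h3 : 0 ≤ ‖T (bv 1)‖ ^ 2 := by positivity
    simp only [ne_eq, OfNat.ofNat_ne_zero, not_false_eq_true, zero_pow, inv_zero, zero_mul,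
      add_zero]
    linarith
  · have h1 := hLA1 d m T x
    have h2 : 0 < rho x ^ 2 := by positivity
    have h3 : nsq T = (rho x ^ 2)⁻¹ * (rho x ^ 2 * nsq T) := by
      field_simp
    rw [h3, h1]
    apply le_of_eq
    field_simp

theorem field_fderiv {d : ℕ} {ζ η : E (d + 2) → ℝ} (hζ : ContDiff ℝ 1 ζ) (hη : ContDiff ℝ 1 η)
    (x : E (d + 2)) : fderiv ℝ (fun x => (ζ x * η x) • Pm d x) x = (ζ x * η x) • Pm d +
      (ζ x • fderiv ℝ η x + η x • fderiv ℝ ζ x).smulRight (Pm d x) := by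
  have h1 : HasFDerivAt ζ (fderiv ℝ ζ x) x :=
    ((hζ.differentiable (by norm_num)) x).hasFDerivAt
  have h2 : HasFDerivAt η (fderiv ℝ η x) x :=
    ((hη.differentiable (by norm_num)) x).hasFDerivAt
  exact ((h1.mul h2).smul (Pm d).hasFDerivAt).fderiv

theorem stat_ball {d m : ℕ} {G : E (d + 2) → E (d + 2) →L[ℝ] E m} (hS : Stat1 G)
    {ζ η : E (d + 2) → ℝ} (hζ : ContDiff ℝ 1 ζ) (hζc : HasCompactSupport ζ)
    (hζs : tsupport ζ ⊆ ball 0 2) (hη : ContDiff ℝ 1 η) :
    ∫ x in ball (0 : E (d + 2)) 2,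
      statF (G x) (fderiv ℝ (fun x => (ζ x * η x) • Pm d x) x) = 0 := by
  have hXc : ContDiff ℝ 1 (fun x => (ζ x * η x) • Pm d x) := (hζ.mul hη).smul (Pm d).contDiff
  have hXs : tsupport (fun x => (ζ x * η x) • Pm d x) ⊆ tsupport ζ := by
    apply closure_mono
    intro x hx hx0
    apply hx
    simp only
    rw [hx0, zero_mul, zero_smul]
  have hXcs : HasCompactSupport (fun x => (ζ x * η x) • Pm d x) :=
    hζc.of_isClosed_subset (isClosed_tsupport _) hXs
  rw [setIntegral_eq_integral_of_forall_compl_eq_zero, hS _ hXc hXcs (hXs.trans hζs)]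
  intro x hx
  have h1 : x ∉ tsupport (fun x => (ζ x * η x) • Pm d x) := fun h => hx (hζs (hXs h))
  rw [fderiv_of_notMem_tsupport (𝕜 := ℝ) h1, statF_zero]

theorem pf_POH (hROT : T_ROT) (hLA1 : T_LA1) (hLA3 : T_LA3) : T_POH := by
  intro d m G ζ η C₀ L hG hS hζ hζc hζs hζ0 hL hζL hη hJ hη0 hk0 hk2 hn hC
  have hR := hROT d
  have hXc : ContDiff ℝ 1 (fun x => (ζ x * η x) • Pm d x) := (hζ.mul hη).smul (Pm d).contDiff
  have hstat2 := stat_ball hS hζ hζc hζs hη
  have hnsqi := nsq_integrable hG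
  have hfη : Continuous (fun x => fderiv ℝ η x) := hη.continuous_fderiv (by norm_num)
  have hkc : Continuous (fun x => kap η x) := by
    unfold kap
    exact (hfη.clm_apply (Pm d).continuous).neg
  have hF := statF_integrable hG _ (hXc.continuous_fderiv (by norm_num))
  obtain ⟨K, hK⟩ := bd_ball (fun x => ζ x * kap η x) (hζ.continuous.mul hkc)
  have hA : Integrable (fun x => ζ x * kap η x *
      (nzs (G x) + (rho x ^ 2)⁻¹ * ‖G x (Pm d x)‖ ^ 2))
      (volume.restrict (ball (0 : E (d + 2)) 2)) := by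
    refine int_of_le hG _ K ?_ fun x hx => ?_
    · exact (hζ.continuous.mul hkc).aestronglyMeasurable.mul
        ((cont_nzs.comp_aestronglyMeasurable hG.1).add
          ((rho_meas _).mul (app_meas hG.1 _ (Pm d).continuous)))
    · have h1 : 0 ≤ (rho x ^ 2)⁻¹ * ‖G x (Pm d x)‖ ^ 2 := by positivity
      have h2 : 0 ≤ (rho x ^ 2)⁻¹ * ‖G x (Jm d x)‖ ^ 2 := by positivity
      have h3 := nzs_nonneg (G x)
      rw [abs_mul, abs_of_nonneg (by linarith :
        0 ≤ nzs (G x) + (rho x ^ 2)⁻¹ * ‖G x (Pm d x)‖ ^ 2)]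
      have h4 := split_le hLA1 (G x) x
      exact mul_le_mul (hK x hx) (by linarith) (by linarith) ((abs_nonneg _).trans (hK x hx))
  have hD : Integrable (fun x => ζ x * kap η x *
      ((rho x ^ 2)⁻¹ * ‖G x (Jm d x)‖ ^ 2)) (volume.restrict (ball (0 : E (d + 2)) 2)) := by
    refine int_of_le hG _ K ?_ fun x hx => ?_
    · exact (hζ.continuous.mul hkc).aestronglyMeasurable.mul
        ((rho_meas _).mul (app_meas hG.1 _ (Jm d).continuous))
    · have h1 : 0 ≤ (rho x ^ 2)⁻¹ * ‖G x (Pm d x)‖ ^ 2 := by positivity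
      have h2 : 0 ≤ (rho x ^ 2)⁻¹ * ‖G x (Jm d x)‖ ^ 2 := by positivity
      have h3 := nzs_nonneg (G x)
      rw [abs_mul, abs_of_nonneg h2]
      have h4 := split_le hLA1 (G x) x
      exact mul_le_mul (hK x hx) (by linarith) h2 ((abs_nonneg _).trans (hK x hx))
  have hI := ((hD.const_mul 6).add (hnsqi.const_mul (18 * L * C₀))).add (hF.const_mul 6)
  have hmain := setIntegral_mono_on hA hI measurableSet_ball (fun x hx => by
    have h := pw hLA1 hLA3 hR (G x) x (fderiv ℝ ζ x) (fderiv ℝ η x) (ζ x) (η x) L C₀ (hζ0 x) hL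
      (hζL x) (hJ x hx) (hη0 x hx) (hk0 x hx) (hk2 x hx) (hn x hx) (hC x hx)
    rw [← field_fderiv hζ hη x] at h
    exact h)
  have h1 := integral_add ((hD.const_mul 6).add (hnsqi.const_mul (18 * L * C₀))) (hF.const_mul 6)
  have h2 := integral_add (hD.const_mul 6) (hnsqi.const_mul (18 * L * C₀))
  rw [integral_const_mul, integral_const_mul] at h2
  rw [integral_const_mul, hstat2, mul_zero, add_zero] at h1
  calc _ ≤ _ := hmain
    _ = _ := h1
    _ = _ := h2

end Pool.Agent.H35.SN
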