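import Pool.Agent.H87.SN.Targets

set_option autoImplicit false

namespace Pool.Agent.H35.SN

open Pool.Agent.H87.SN
open MeasureTheory Metric Set Filter Topology
open scoped ContDiff RealInnerProductSpace

theorem sum_split {d : ℕ} {F : Type*} [AddCommMonoid F] (f : Fin (d + 2) → F) :
    ∑ i, f i = f 0 + f 1 + ∑ i : Fin d, f i.succ.succ := by
  rw [Fin.sum_univ_succ, Fin.sum_univ_succ]
  exact (add_assoc _ _ _).symm

theorem bv_apply {n : ℕ} (i j : Fin n) : (bv i : E n) j = if j = i then (1 : ℝ) else 0 := by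
  simp [bv]

theorem Pm_apply {d : ℕ} (x : E (d + 2)) (i : Fin (d + 2)) :
    (Pm d x) i = if (i : ℕ) < 2 then x i else 0 := rfl

theorem Jm_apply {d : ℕ} (x : E (d + 2)) (i : Fin (d + 2)) :
    (Jm d x) i = if (i : ℕ) = 0 then - x 1 else if (i : ℕ) = 1 then x 0 else 0 := rfl

theorem expand {n : ℕ} (v : E n) : v = ∑ i, v i • bv i := by
  ext j
  simp [bv_apply]

theorem map_expand {n : ℕ} {F : Type*} [NormedAddCommGroup F] [NormedSpace ℝ F] (T : E n →L[ℝ] F)
    (v : E n) : T v = ∑ i, v i • T (bv i) := by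
  conv_lhs => rw [expand v]
  rw [map_sum]
  exact Finset.sum_congr rfl fun i _ => by rw [map_smul]

theorem one_ne_zero' {d : ℕ} : (1 : Fin (d + 2)) ≠ 0 := by
  intro h
  have := congrArg Fin.val h
  simp at this

theorem map_Pm {d : ℕ} {F : Type*} [NormedAddCommGroup F] [NormedSpace ℝ F]
    (T : E (d + 2) →L[ℝ] F) (x : E (d + 2)) :
    T (Pm d x) = x 0 • T (bv 0) + x 1 • T (bv 1) := by
  rw [map_expand, sum_split]
  have h : ∑ i : Fin d, (Pm d x) i.succ.succ • T (bv i.succ.succ) = 0 := by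
    refine Finset.sum_eq_zero fun i _ => ?_
    rw [Pm_apply, if_neg (by simp), zero_smul]
  rw [h, add_zero, Pm_apply, Pm_apply, if_pos (by simp), if_pos (by simp)]

theorem map_Jm {d : ℕ} {F : Type*} [NormedAddCommGroup F] [NormedSpace ℝ F]
    (T : E (d + 2) →L[ℝ] F) (x : E (d + 2)) :
    T (Jm d x) = (- x 1) • T (bv 0) + x 0 • T (bv 1) := by
  rw [map_expand, sum_split]
  have h : ∑ i : Fin d, (Jm d x) i.succ.succ • T (bv i.succ.succ) = 0 := by
    refine Finset.sum_eq_zero fun i _ => ?_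
    rw [Jm_apply, if_neg (by simp), if_neg (by simp), zero_smul]
  rw [h, add_zero, Jm_apply, Jm_apply, if_pos (by simp), if_neg (by simp), if_pos (by simp)]

theorem Pm_bv_zero {d : ℕ} : Pm d (bv 0) = bv 0 := by
  ext i
  rw [Pm_apply, bv_apply]
  split_ifs with h1 h2 h2
  · rfl
  · rfl
  · subst h2
    simp at h1
  · rfl

theorem Pm_bv_one {d : ℕ} : Pm d (bv 1) = bv 1 := by
  ext i
  rw [Pm_apply, bv_apply]
  split_ifs with h1 h2 h2
  · rfl
  · rfl
  · subst h2
    simp at h1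
  · rfl

theorem Pm_bv_succ {d : ℕ} (j : Fin d) : Pm d (bv j.succ.succ) = 0 := by
  ext i
  rw [Pm_apply, bv_apply]
  split_ifs with h1 h2
  · subst h2
    simp at h1
  · rfl
  · rfl

theorem nsq_split {d : ℕ} {F : Type*} [NormedAddCommGroup F] [NormedSpace ℝ F]
    (T : E (d + 2) →L[ℝ] F) : nsq T = ‖T (bv 0)‖ ^ 2 + ‖T (bv 1)‖ ^ 2 + nzs T := by
  unfold nsq nzs
  rw [sum_split]

/-- The integrand for the vector field. -/
theorem statF_field {d m : ℕ} (T : E (d + 2) →L[ℝ] E m) (α : E (d + 2) →L[ℝ] ℝ) (s : ℝ)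
    (p : E (d + 2)) :
    statF T (s • Pm d + α.smulRight p) = nsq T * (α p + 2 * s) -
      2 * ⟪∑ i, α (bv i) • T (bv i), T p⟫ - 2 * s * (nsq T - nzs T) := by
  unfold statF
  have h1 : ∑ i : Fin (d + 2), ((s • Pm d + α.smulRight p) (bv i)) i = α p + 2 * s := by
    have h2 : ∀ i : Fin (d + 2), ((s • Pm d + α.smulRight p) (bv i)) i =
        s * (Pm d (bv i)) i + p i * α (bv i) := by
      intro i
      simp [mul_comm]
    simp_rw [h2]
    rw [Finset.sum_add_distrib, ← Finset.mul_sum]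
    have h3 : ∑ i : Fin (d + 2), (Pm d (bv i)) i = 2 := by
      rw [sum_split, Pm_bv_zero, Pm_bv_one]
      have h4 : ∑ i : Fin d, (Pm d (bv i.succ.succ)) i.succ.succ = 0 := by
        refine Finset.sum_eq_zero fun i _ => ?_
        rw [Pm_bv_succ]
        rfl
      rw [h4, bv_apply, bv_apply, if_pos rfl, if_pos rfl]
      norm_num
    have h5 : α p = ∑ i, p i * α (bv i) := by
      rw [map_expand α p]
      rfl
    rw [h3, h5]
    ring
  have h2 : ∑ i : Fin (d + 2), ∑ j : Fin (d + 2), ⟪T (bv i), T (bv j)⟫ *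
      ((s • Pm d + α.smulRight p) (bv i)) j =
      ⟪∑ i, α (bv i) • T (bv i), T p⟫ + s * (nsq T - nzs T) := by
    have h3 : ∀ i : Fin (d + 2), ∑ j : Fin (d + 2), ⟪T (bv i), T (bv j)⟫ *
        ((s • Pm d + α.smulRight p) (bv i)) j =
        ⟪T (bv i), T ((s • Pm d + α.smulRight p) (bv i))⟫ := by
      intro i
      rw [map_expand T ((s • Pm d + α.smulRight p) (bv i)), inner_sum]
      refine Finset.sum_congr rfl fun j _ => ?_
      rw [real_inner_smul_right, mul_comm]
    simp_rw [h3]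
    have h4 : ∀ i : Fin (d + 2), ⟪T (bv i), T ((s • Pm d + α.smulRight p) (bv i))⟫ =
        s * ⟪T (bv i), T (Pm d (bv i))⟫ + ⟪α (bv i) • T (bv i), T p⟫ := by
      intro i
      have h5 : T ((s • Pm d + α.smulRight p) (bv i)) =
          s • T (Pm d (bv i)) + α (bv i) • T p := by
        simp
      rw [h5, inner_add_right, real_inner_smul_right, real_inner_smul_right,
        real_inner_smul_left]
    simp_rw [h4]
    rw [Finset.sum_add_distrib, ← Finset.mul_sum, sum_inner]
    have h6 : ∑ i : Fin (d + 2), ⟪T (bv i), T (Pm d (bv i))⟫ = nsq T - nzs T := by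
      rw [sum_split, Pm_bv_zero, Pm_bv_one]
      have h7 : ∑ i : Fin d, ⟪T (bv i.succ.succ), T (Pm d (bv i.succ.succ))⟫ = 0 := by
        refine Finset.sum_eq_zero fun i _ => ?_
        rw [Pm_bv_succ, map_zero, inner_zero_right]
      rw [h7, nsq_split, real_inner_self_eq_norm_sq, real_inner_self_eq_norm_sq]
      ring
    rw [h6]
    ring
  rw [h1, h2]
  ring

end Pool.Agent.H35.SN
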