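import Pool.Agent.H35.SN.POHa

set_option autoImplicit false

namespace Pool.Agent.H35.SN

open Pool.Agent.H87.SN
open MeasureTheory Metric Set Filter Topology
open scoped ContDiff RealInnerProductSpace

theorem norm_sq_sum {n : ℕ} (v : E n) : ‖v‖ ^ 2 = ∑ i, v i ^ 2 := by
  rw [EuclideanSpace.norm_sq_eq]
  exact Finset.sum_congr rfl fun i _ => by rw [Real.norm_eq_abs, sq_abs]

theorem nsq_nonneg {n : ℕ} {F : Type*} [NormedAddCommGroup F] [NormedSpace ℝ F]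
    (T : E n →L[ℝ] F) : 0 ≤ nsq T := Finset.sum_nonneg fun _ _ => sq_nonneg _

theorem nzs_nonneg {d : ℕ} {F : Type*} [NormedAddCommGroup F] [NormedSpace ℝ F]
    (T : E (d + 2) →L[ℝ] F) : 0 ≤ nzs T := Finset.sum_nonneg fun _ _ => sq_nonneg _

theorem abs_le_real {n : ℕ} (Z : E n →L[ℝ] ℝ) (v : E n) : (Z v) ^ 2 ≤ ‖v‖ ^ 2 * nsq Z := by
  rw [map_expand Z v, norm_sq_sum]
  have h := Finset.sum_mul_sq_le_sq_mul_sq Finset.univ (fun i => v i) (fun i => Z (bv i))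
  have h2 : nsq Z = ∑ i, Z (bv i) ^ 2 := by
    unfold nsq
    exact Finset.sum_congr rfl fun i _ => by rw [Real.norm_eq_abs, sq_abs]
  rw [h2]
  simpa using h

theorem norm_grad {n m : ℕ} (hLA3 : T_LA3) (Z : E n →L[ℝ] ℝ) (T : E n →L[ℝ] E m) :
    ‖∑ i, Z (bv i) • T (bv i)‖ ^ 2 ≤ nsq Z * nsq T := by
  have h1 : T (∑ i, Z (bv i) • bv i) = ∑ i, Z (bv i) • T (bv i) := by
    rw [map_sum]
    exact Finset.sum_congr rfl fun i _ => by rw [map_smul]
  rw [← h1]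
  refine (hLA3.1 n m T _).trans (le_of_eq ?_)
  congr 1
  rw [norm_sq_sum]
  unfold nsq
  refine Finset.sum_congr rfl fun i _ => ?_
  have h2 : (∑ j, Z (bv j) • bv j : E n) i = Z (bv i) := by
    simp [bv_apply]
  rw [h2, Real.norm_eq_abs, sq_abs]

theorem sq_le_abs {a b : ℝ} (hb : 0 ≤ b) (h : a ^ 2 ≤ b ^ 2) : |a| ≤ b :=
  abs_le_of_sq_le_sq h hb

theorem pw {d m : ℕ} (hLA1 : T_LA1) (hLA3 : T_LA3) (hR : RotFacts d) (T : E (d + 2) →L[ℝ] E m)
    (x : E (d + 2)) (Z H : E (d + 2) →L[ℝ] ℝ) (z h L C₀ : ℝ) (hz : 0 ≤ z) (hL : 0 ≤ L)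
    (hZ : nsq Z ≤ L ^ 2) (hJ : H (Jm d x) = 0) (hh : 0 ≤ h) (hk : 0 ≤ - H (Pm d x))
    (hk2 : - H (Pm d x) ≤ 3 / 2 * h) (hn : rho x ^ 2 * nzs H ≤ (- H (Pm d x)) * h / 16)
    (hC : rho x * h ≤ C₀) :
    z * (- H (Pm d x)) * (nzs T + (rho x ^ 2)⁻¹ * ‖T (Pm d x)‖ ^ 2) ≤
      6 * (z * (- H (Pm d x)) * ((rho x ^ 2)⁻¹ * ‖T (Jm d x)‖ ^ 2)) + 18 * L * C₀ * nsq T +
      6 * statF T ((z * h) • Pm d + (z • H + h • Z).smulRight (Pm d x)) := by
  have hρ0 : 0 ≤ rho x := Real.sqrt_nonneg _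
  have hnT := nsq_nonneg T
  have hzT := nzs_nonneg T
  have hPn : ‖Pm d x‖ = rho x := hR.normP x
  set κ : ℝ := - H (Pm d x) with hκ
  -- the error terms
  have hZP : |Z (Pm d x)| ≤ rho x * L := by
    apply sq_le_abs (by positivity)
    have h1 := abs_le_real Z (Pm d x)
    rw [hPn] at h1
    calc (Z (Pm d x)) ^ 2 ≤ rho x ^ 2 * nsq Z := h1
      _ ≤ rho x ^ 2 * L ^ 2 := mul_le_mul_of_nonneg_left hZ (by positivity)
      _ = (rho x * L) ^ 2 := by ring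
  set wZ : E m := ∑ i, Z (bv i) • T (bv i) with hwZ
  have hTP : ‖T (Pm d x)‖ ^ 2 ≤ rho x ^ 2 * nsq T := by
    have h1 := hLA3.1 (d + 2) m T (Pm d x)
    rwa [hPn] at h1
  have hwT : |⟪wZ, T (Pm d x)⟫| ≤ L * rho x * nsq T := by
    apply sq_le_abs (by positivity)
    have h1 : |⟪wZ, T (Pm d x)⟫| ≤ ‖wZ‖ * ‖T (Pm d x)‖ := abs_real_inner_le_norm _ _
    have h2 : ‖wZ‖ ^ 2 ≤ L ^ 2 * nsq T := by
      refine (norm_grad hLA3 Z T).trans ?_
      exact mul_le_mul_of_nonneg_right hZ hnT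
    calc ⟪wZ, T (Pm d x)⟫ ^ 2 = |⟪wZ, T (Pm d x)⟫| ^ 2 := (sq_abs _).symm
      _ ≤ (‖wZ‖ * ‖T (Pm d x)‖) ^ 2 := pow_le_pow_left₀ (abs_nonneg _) h1 2
      _ = ‖wZ‖ ^ 2 * ‖T (Pm d x)‖ ^ 2 := by ring
      _ ≤ (L ^ 2 * nsq T) * (rho x ^ 2 * nsq T) :=
          mul_le_mul h2 hTP (by positivity) (by positivity)
      _ = (L * rho x * nsq T) ^ 2 := by ring
  have herr : - (3 * L * C₀ * nsq T) ≤ h * (nsq T * Z (Pm d x) - 2 * ⟪wZ, T (Pm d x)⟫) := by
    have h1 := (abs_le.1 hZP).1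
    have h2 := (abs_le.1 hwT).2
    have h3 : - (3 * (rho x * L) * nsq T) ≤ nsq T * Z (Pm d x) - 2 * ⟪wZ, T (Pm d x)⟫ := by
      have h4 : nsq T * (-(rho x * L)) ≤ nsq T * Z (Pm d x) := mul_le_mul_of_nonneg_left h1 hnT
      nlinarith
    have h5 := mul_le_mul_of_nonneg_left h3 hh
    have h6 : (rho x * h) * (3 * L * nsq T) ≤ C₀ * (3 * L * nsq T) :=
      mul_le_mul_of_nonneg_right hC (by positivity)
    nlinarith
  rw [statF_field]
  have hsum : ∑ i, (z • H + h • Z) (bv i) • T (bv i) =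
      z • (∑ i, H (bv i) • T (bv i)) + h • wZ := by
    rw [hwZ, Finset.smul_sum, Finset.smul_sum, ← Finset.sum_add_distrib]
    refine Finset.sum_congr rfl fun i _ => ?_
    rw [smul_smul, smul_smul, ← add_smul]
    simp
  have hval : (z • H + h • Z) (Pm d x) = - (z * κ) + h * Z (Pm d x) := by
    simp [hκ]
  rw [hsum, hval, inner_add_left, real_inner_smul_left, real_inner_smul_left]
  rcases hρ0.eq_or_lt with hρ | hρ
  · -- on the axis
    have hP0 : Pm d x = 0 := by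
      rw [← norm_eq_zero, hPn]
      exact hρ.symm
    have hκ0 : κ = 0 := by rw [hκ, hP0, map_zero, neg_zero]
    have hC0 : 0 ≤ C₀ := by
      rw [← hρ] at hC
      simpa using hC
    rw [hP0] at herr ⊢
    rw [hκ0]
    simp only [map_zero, inner_zero_right, mul_zero, zero_mul, neg_zero, sub_zero, zero_add]
    have h1 : 0 ≤ z * h := mul_nonneg hz hh
    have h2 : 0 ≤ 18 * L * C₀ * nsq T := by positivity
    have h3 : 0 ≤ (z * h) * nzs T := mul_nonneg h1 hzT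
    nlinarith
  · have hρ2 : 0 < rho x ^ 2 := by positivity
    set p : ℝ := (rho x ^ 2)⁻¹ * ‖T (Pm d x)‖ ^ 2 with hp
    set j : ℝ := (rho x ^ 2)⁻¹ * ‖T (Jm d x)‖ ^ 2 with hj
    have hp0 : 0 ≤ p := by positivity
    have hj0 : 0 ≤ j := by positivity
    have hpρ : ‖T (Pm d x)‖ ^ 2 = rho x ^ 2 * p := by
      rw [hp]
      field_simp
    have hn3 : nsq T = nzs T + p + j := by
      have h1 := hLA1 d m T x
      have h2 : ‖T (Jm d x)‖ ^ 2 = rho x ^ 2 * j := by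
        rw [hj]
        field_simp
      rw [hpρ, h2] at h1
      have h3 : rho x ^ 2 * (nsq T - (nzs T + p + j)) = 0 := by linarith
      rcases mul_eq_zero.1 h3 with h4 | h4
      · exact absurd h4 hρ2.ne'
      · linarith
    set c : E m := ∑ i : Fin d, H (bv i.succ.succ) • T (bv i.succ.succ) with hc
    have hρe : rho x ^ 2 = x 0 ^ 2 + x 1 ^ 2 := by
      unfold rho
      rw [Real.sq_sqrt (by positivity)]
    have hwH : rho x ^ 2 • (∑ i, H (bv i) • T (bv i)) = (- κ) • T (Pm d x) + rho x ^ 2 • c := by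
      rw [sum_split, smul_add, hc]
      congr 1
      have hHJ := hJ
      rw [map_Jm] at hHJ
      have hHP : H (Pm d x) = - κ := by rw [hκ, neg_neg]
      rw [map_Pm] at hHP
      simp only [smul_eq_mul] at hHJ hHP
      rw [map_Pm T x, smul_add, smul_add, smul_smul, smul_smul, smul_smul, smul_smul, ← hHP, hρe]
      congr 1
      · congr 1
        linear_combination (-(x 1)) * hHJ
      · congr 1
        linear_combination (x 0) * hHJ
    have hin : ⟪∑ i, H (bv i) • T (bv i), T (Pm d x)⟫ = - (κ * p) + ⟪c, T (Pm d x)⟫ := by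
      have h1 := congrArg (fun w : E m => ⟪w, T (Pm d x)⟫) hwH
      rw [inner_add_left, real_inner_smul_left, real_inner_smul_left, real_inner_smul_left,
        real_inner_self_eq_norm_sq, hpρ] at h1
      have h3 : rho x ^ 2 * (⟪∑ i, H (bv i) • T (bv i), T (Pm d x)⟫ -
          (- (κ * p) + ⟪c, T (Pm d x)⟫)) = 0 := by linarith
      rcases mul_eq_zero.1 h3 with h4 | h4
      · exact absurd h4 hρ2.ne'
      · linarith
    have hcr : |⟪c, T (Pm d x)⟫| ≤ (h * nzs T + κ * p) / 8 := by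
      apply sq_le_abs (by positivity)
      have h1 : |⟪c, T (Pm d x)⟫| ≤ ‖c‖ * ‖T (Pm d x)‖ := abs_real_inner_le_norm _ _
      have h2 : ‖c‖ ^ 2 ≤ nzs H * nzs T := by
        have h3 := hLA3.2 d m T (fun i => H (bv i.succ.succ))
        have h4 : ∑ i : Fin d, H (bv i.succ.succ) ^ 2 = nzs H := by
          unfold nzs
          exact Finset.sum_congr rfl fun i _ => by rw [Real.norm_eq_abs, sq_abs]
        rw [h4] at h3
        exact h3
      calc ⟪c, T (Pm d x)⟫ ^ 2 = |⟪c, T (Pm d x)⟫| ^ 2 := (sq_abs _).symm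
        _ ≤ (‖c‖ * ‖T (Pm d x)‖) ^ 2 := pow_le_pow_left₀ (abs_nonneg _) h1 2
        _ = ‖c‖ ^ 2 * (rho x ^ 2 * p) := by rw [mul_pow, hpρ]
        _ ≤ (nzs H * nzs T) * (rho x ^ 2 * p) := mul_le_mul_of_nonneg_right h2 (by positivity)
        _ = (rho x ^ 2 * nzs H) * (nzs T * p) := by ring
        _ ≤ (κ * h / 16) * (nzs T * p) := mul_le_mul_of_nonneg_right hn (by positivity)
        _ ≤ ((h * nzs T + κ * p) / 8) ^ 2 := by nlinarith [sq_nonneg (h * nzs T - κ * p)]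
    rw [hin]
    have hc2 := (abs_le.1 hcr).2
    have hz1 : z * (κ * (nzs T + p) - 6 * (κ * j)) ≤
        6 * (z * ((2 * h - κ) * nzs T + κ * p - κ * j - 2 * ⟪c, T (Pm d x)⟫)) := by
      have h1 : κ * (nzs T + p) - 6 * (κ * j) ≤
          6 * ((2 * h - κ) * nzs T + κ * p - κ * j - 2 * ⟪c, T (Pm d x)⟫) := by
        have h2 : κ * nzs T ≤ 3 / 2 * h * nzs T := mul_le_mul_of_nonneg_right hk2 hzT
        have h3 : 0 ≤ κ * p := mul_nonneg hk hp0
        nlinarith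
      have h2 := mul_le_mul_of_nonneg_left h1 hz
      linarith
    have hid : nsq T * (-(z * κ) + h * Z (Pm d x) + 2 * (z * h)) -
        2 * (z * (-(κ * p) + ⟪c, T (Pm d x)⟫) + h * ⟪wZ, T (Pm d x)⟫) -
        2 * (z * h) * (nsq T - nzs T) =
        z * ((2 * h - κ) * nzs T + κ * p - κ * j - 2 * ⟪c, T (Pm d x)⟫) +
        h * (nsq T * Z (Pm d x) - 2 * ⟪wZ, T (Pm d x)⟫) := by
      rw [hn3]
      ring
    rw [hid]
    nlinarith

end Pool.Agent.H35.SN
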